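import Pool.Agent.TH505.OW.Fin

/-!
Orientable five cycle double covers of all bridgeless graphs of carving width at most five.

A carving of a graph is a binary tree whose leaves are the vertices; its width is the largest number
of edges that leave the set of leaves of a subtree. Proof. An orientable cycle double cover with five
classes is the same as a flow whose values are differences `e_i - e_j` of two of five unit vectors.
Cuts of size two are reduced by merging one side into an end of a cut edge, which does not increase
the width. In a graph without cuts of size less than three each subtree gives a piece with three,
four or five outgoing edges, and up to the permutations of the coordinates, the change of all signs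
and the permutations of the outgoing edges the set of the states of the outgoing edges that extend to
the piece contains one of 26 explicit sets (1, 3, 22 sets for 3, 4, 5 edges): this family is closed
under gluing two pieces, which is checked by the kernel, and two complementary pieces always have a
common state.
-/

set_option autoImplicit false

namespace Pool.Agent.Results.MP_781dd6_co.CarvingWidthFive

open Pool.Agent.TH505.OW

open scoped Classical in
/-- Let `G` be a finite simple graph without cut edges. Assume that some binary tree `T` whose
leaves are labelled bijectively by the vertices of `G` has width at most five: for each subtree at
most five edges of `G` leave the set of its leaves. Then there are five families of directed cycles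
such that no family traverses an edge more than once in total and every edge is traversed exactly
once in each direction. -/
theorem result :
    ∀ (V : Type) [Fintype V] (G : SimpleGraph V),
      (∀ u v : V, G.Adj u v → (G.deleteEdges {s(u, v)}).Reachable u v) →
      ∀ T : Tr V, T.set = Set.univ → T.Nodup → T.CarvWidth G 5 →
      ∃ C : Fin 5 → List (Σ v : V, G.Walk v v), (∀ i, ∀ c ∈ C i, c.2.IsCycle) ∧
        (∀ i u v, ((C i).map (fun c =>
            (c.2.darts.filter (fun d => decide (d.toProd = (u, v)))).length)).sum +
          ((C i).map (fun c =>
            (c.2.darts.filter (fun d => decide (d.toProd = (v, u)))).length)).sum ≤ 1) ∧
        ∀ u v, G.Adj u v → ∑ i, ((C i).map (fun c =>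
          (c.2.darts.filter (fun d => decide (d.toProd = (u, v)))).length)).sum = 1 := by
  intro V _ G h T hT hN hW
  exact final G h T hT hN hW

end Pool.Agent.Results.MP_781dd6_co.CarvingWidthFive
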