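import Pool.Agent.TH505.OCDC.KFold

set_option autoImplicit false

namespace Pool.Agent.Results.MP_781dd6_co.KFoldOriented

open scoped Classical in
/-- For every `k ≥ 2`: every finite simple graph with no cut edge has a finite list of cycles
(length at least 3), each traversed in a direction, such that every edge is traversed exactly
`k` times in each of its two directions overall. -/
theorem result :
    ∀ k : ℕ, 2 ≤ k → ∀ (V : Type) [Fintype V] (G : SimpleGraph V),
      (∀ u v : V, G.Adj u v → (G.deleteEdges {s(u, v)}).Reachable u v) →
      ∃ C : List (Σ v : V, G.Walk v v),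
        (∀ c ∈ C, c.2.IsCycle) ∧
        ∀ u v : V, G.Adj u v →
          (C.map (fun c => (c.2.darts.filter (fun d => decide (d.toProd = (u, v)))).length)).sum
            = k := by
  intro k hk V _ G hG
  exact Pool.Agent.TH505.OCDC.kfold G hG k hk

end Pool.Agent.Results.MP_781dd6_co.KFoldOriented
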