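import Pool.Agent.TH505.SC.Final

set_option autoImplicit false

namespace Pool.Agent.Results.MP_781dd6_co.ShortCircuit

open scoped Classical in
/-- Let `G` be a finite cubic simple graph whose edges are coloured with three colours so that
every vertex at which two edges have the same colour lies on one given circuit of length at most
six. Then there are five families of directed cycles, the members of one family being disjoint,
such that every edge is traversed exactly once in each direction. -/
theorem result :
    ∀ (V : Type) [Fintype V] (G : SimpleGraph V), (∀ v, (G.neighborSet v).ncard = 3) →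
      ∀ (x : V) (Q : G.Walk x x), Q.IsCycle → Q.length ≤ 6 →
      ∀ c : Sym2 V → Fin 3,
      (∀ v, v ∉ Q.support → ∀ y z, G.Adj v y → G.Adj v z → y ≠ z → c s(v, y) ≠ c s(v, z)) →
      ∃ C : Fin 5 → List (Σ v : V, G.Walk v v), (∀ i, ∀ c ∈ C i, c.2.IsCycle) ∧
        (∀ i v, ((C i).map (fun c =>
          (c.2.darts.filter (fun d => decide (d.fst = v))).length)).sum ≤ 1) ∧
        ∀ u v, G.Adj u v → ∑ i, ((C i).map (fun c =>
          (c.2.darts.filter (fun d => decide (d.toProd = (u, v)))).length)).sum = 1 := by
  intro V _ G h3 x Q hQ h6 c hc
  exact Pool.Agent.TH505.SC.conflicts G h3 x Q hQ h6 c hc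

end Pool.Agent.Results.MP_781dd6_co.ShortCircuit
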