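import Pool.Agent.TH362.FO.MainOD
import Pool.Agent.TH362.FO.Walk2

/-!
# Oriented cycle double covers of graphs with at most twelve edge cuts of size three

Every bridgeless simple graph which has at most sixteen vertices of odd degree, or no thirteen
pairwise disjoint vertex sets with pairwise different boundaries of size three (for example at most
twelve edge cuts of size three), has an orientable cycle double cover with five classes. There is no
condition on the number of vertices, on the degrees or on the connectivity.

Proof. Such a graph has a nowhere-zero 4-flow, or it can be contracted to the Petersen graph so that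
three edges leave each of the ten classes. In the first case, for Eulerian orientations `a`, `b`,
`c` of the supports of the three Klein flows, the four flows `(a + b + c) / 2`, `(a - b - c) / 2`,
`(- a + b - c) / 2`, `(- a - b + c) / 2` are an orientable cycle double cover with four classes. In
the second case one may glue along the cuts with three edges, where the pattern of the five classes
is unique up to the numbering and the sign. This reduces to smaller graphs and to the Petersen graph.
-/

set_option autoImplicit false

namespace Pool.Agent.Results.MP_781dd6_co.TwelveThreeCuts

open scoped Classical in
/-- Let `G` be a finite simple graph without cut edges. Suppose that `G` has at most sixteen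
vertices of odd degree, or that among any thirteen pairwise disjoint vertex sets with pairwise
different boundaries there is one whose boundary does not have exactly three edges. Then there are
five families of directed cycles such that no family traverses an edge more than once in total and
every edge is traversed exactly once in each direction. -/
theorem result :
    ∀ (V : Type) [Fintype V] (G : SimpleGraph V),
      (∀ u v : V, G.Adj u v → (G.deleteEdges {s(u, v)}).Reachable u v) →
      ({v | Odd (G.neighborSet v).ncard}.ncard ≤ 16 ∨
        ∀ X : Fin 13 → Set V, (∀ i j, i ≠ j → Disjoint (X i) (X j)) →
          (∀ i j, i ≠ j → {e | ∃ u v, G.Adj u v ∧ u ∈ X i ∧ v ∉ X i ∧ e = s(u, v)} ≠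
            {e | ∃ u v, G.Adj u v ∧ u ∈ X j ∧ v ∉ X j ∧ e = s(u, v)}) →
          ∃ i, {e | ∃ u v, G.Adj u v ∧ u ∈ X i ∧ v ∉ X i ∧ e = s(u, v)}.ncard ≠ 3) →
      ∃ C : Fin 5 → List (Σ v : V, G.Walk v v), (∀ i, ∀ c ∈ C i, c.2.IsCycle) ∧
        (∀ i u v, ((C i).map (fun c =>
            (c.2.darts.filter (fun d => decide (d.toProd = (u, v)))).length)).sum +
          ((C i).map (fun c =>
            (c.2.darts.filter (fun d => decide (d.toProd = (v, u)))).length)).sum ≤ 1) ∧
        ∀ u v, G.Adj u v → ∑ i, ((C i).map (fun c =>
          (c.2.darts.filter (fun d => decide (d.toProd = (u, v)))).length)).sum = 1 := by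
  intro V _ G hb hfew
  exact Pool.Agent.TH362.FO.od_walk2 V G hb hfew
    (fun s t h1 h => Pool.Agent.TH362.FO.od_main s t Finset.univ h1 h)

end Pool.Agent.Results.MP_781dd6_co.TwelveThreeCuts
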